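import Pool.Agent.H224Z.TauSMZ

/-!
Every set of reals with (Ω choose T) but not (Ω choose Γ) is an uncountable strong measure zero set.
-/

namespace Pool.Agent.Results.MP_d9033c_gt.ACounterexamplesAreSMZ

open Pool.Agent.Helper185.Sel

theorem result (X : Set ℝ) (h1 : Choose (OmegaOf (OpenFam X)) (TauOf (OpenFam X)))
    (h2 : ¬ Choose (OmegaOf (OpenFam X)) (GammaOf (OpenFam X))) :
    ¬ X.Countable ∧
      ∀ ε : ℕ → ℝ, (∀ n, 0 < ε n) → ∃ a : ℕ → ℝ, X ⊆ ⋃ n, Set.Ioo (a n) (a n + ε n) := by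
  have hc : ¬ X.Countable := fun h => by
    have := h.to_subtype
    exact h2 Pool.Agent.H224Z.TauRoth.choose_gamma_of_countable
  have hX : X.Infinite := fun h => hc h.countable
  have : Infinite X := hX.to_subtype
  exact ⟨hc, Pool.Agent.H224Z.TauRoth.smz_of_cov (Pool.Agent.H224Z.TauRoth.cov_of_omega
    (Pool.Agent.H224Z.TauRoth.s1_of_sfin (Pool.Agent.H224Z.TauRoth.thinBase_real X)
      (Pool.Agent.H224Z.SfinTau.sfin_of_choose h1)))⟩

end Pool.Agent.Results.MP_d9033c_gt.ACounterexamplesAreSMZ
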